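import Pool.Agent.Lib.MP_e8899b_al.Defs
import Pool.Agent.Lib.MP_e8899b_al.Var

set_option autoImplicit false

namespace Pool.Agent.Results.MP_e8899b_al.NilpotentCounterexample

open Pool.Agent.Lib.MP_e8899b_al

/-- There is a variety `U` of nilpotent groups of class at most six such that `[U, E]` is generated
by its free group of rank five (and `[U, E] = [var F_5(U), E]`), while `U` is not generated by its
free group of rank five. -/
theorem result : ∃ U : Variety,
    (∀ (G : Type) [Group G], U.Mem G → Group.IsNilpotent G ∧ Group.nilpotencyClass G ≤ 6) ∧
    U.comm Variety.triv = Variety.gen ((U.comm Variety.triv).free 5) ∧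
    U.comm Variety.triv = (Variety.gen (U.free 5)).comm Variety.triv ∧
    U ≠ Variety.gen (U.free 5) :=
  ⟨UU, part0, part1, part2, part3⟩

end Pool.Agent.Results.MP_e8899b_al.NilpotentCounterexample
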